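import Pool.Agent.D0H78.PR.Main

/-!
# Hodge classes and de Rham-Betti classes: finite indices over the motivated classes

Let `X` be a smooth projective variety with nonzero cohomology over an algebraically closed subfield
`F` of `ℂ`, for instance over the field of algebraic numbers. A class `x` in `H^(2 j)(X^n, ℚ)` is a
de Rham-Betti class if the comparison isomorphism `β` maps `(2 π i)^j x` to the algebraic de Rham
cohomology over `F`. Let `m n`, `h n`, `b n` be the numbers of linearly independent motivated classes
(André), Hodge classes and de Rham-Betti classes, of all codimensions, on the product of `n + 1`
copies of `X`. Motivated classes are Hodge classes and de Rham-Betti classes; no other relation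
between the three spaces is known in general. Grothendieck's conjecture (with the description of
`G_mod` by motivated classes) implies that `b n / m n` is bounded.

* There are `N`, `M` in `{1, 2, …, ∞}` such that `h n / m n` converges to `N` and `b n / m n`
  converges to `M`; `N = 1` if and only if all Hodge classes on all powers of `X` are motivated, and
  `M = 1` if and only if all de Rham-Betti classes on all powers of `X` are motivated.
* If `M` is finite, for example if there are at most `C m n` de Rham-Betti classes for a constant
  `C`, then all de Rham-Betti classes on all powers of `X` are Hodge classes.
* If `N` is finite, then all Hodge classes on all powers of `X` are de Rham-Betti classes.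
* So if `N` and `M` are finite, then `N = M`, and the Hodge classes and the de Rham-Betti classes on
  all powers of `X` are the same. (In terms of groups: the Mumford-Tate group and the de Rham-Betti
  group have finite index in `G_mod(X)`, and then both are its identity component.)
* If `N` is finite and `M = ∞`, then the proportion of the Hodge classes among the de Rham-Betti
  classes on `X^n` tends to zero.

If all Hodge classes on the powers of `X` are motivated (for instance for abelian varieties, by a
theorem of André), we have `N = 1`. So `M` is `1` or `∞`: either the de Rham-Betti classes on all
powers of `X` are the Hodge classes, as predicted by the period conjecture, or the proportion of the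
Hodge classes among the de Rham-Betti classes tends to zero. Conversely, if all de Rham-Betti classes
are motivated (`M = 1`), then all Hodge classes are motivated, or the motivated classes have density
zero in the Hodge classes.

Idea of the proof. The comparison isomorphism defines, for all automorphisms `σ` of `ℂ` over `F`, a
`ℂ`-linear automorphism of the algebra `H(X^n, ℂ)`, the composition of the `σ`-linear automorphism
which fixes the de Rham cohomology with the `σ⁻¹`-linear automorphism which fixes the rational
classes. It respects the motivated classes up to powers of `2 π i / σ(2 π i)`. A rational class which
has finitely many conjugates under the group of all automorphisms which respect the motivated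
classes is therefore a de Rham-Betti class, as `F` is algebraically closed, and it is a Hodge class,
since the Hodge decomposition gives a divisible group of such automorphisms. If an index is finite,
the classes in question are generated by finitely many classes under motivated correspondences, and
this gives polynomial formulas for all powers of a class which force its orbit under any such group
to be finite.
-/

open CategoryTheory AlgebraicGeometry

universe u

namespace Pool.Agent.Results.MP_caab05_ag.HodgePeriodIndex

open Pool.Agent.H914 Pool.Agent.Y121.AHS Pool.Agent.D0H78.PRL

variable {k : Type u} [Field k] {𝒱 : VarClass k} {ops : CycleOps 𝒱}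

/-- **The index law for Hodge classes and de Rham-Betti classes over the motivated classes.** -/
theorem result (T : HodgeTheory ops) {F : Subfield ℂ} [IsAlgClosed F] (D : DeRham T.W F)
    (X : 𝒱.Obj) [Nontrivial (T.W.H X)] (m h b : ℕ → ℕ)
    (hm : ∀ n, m n = spanDim T.W.K (Motivated T X n))
    (hh : ∀ n, h n = spanDim T.W.K (Hodge T X n))
    (hb : ∀ n, b n = spanDim T.W.K (DeRhamBetti D X n)) :
    ∃ N M : ℕ∞, 1 ≤ N ∧ 1 ≤ M ∧ HasLimit h m N ∧ HasLimit b m M ∧
      Imply (Motivated T X) (Hodge T X) ∧ Imply (Motivated T X) (DeRhamBetti D X) ∧
      (N = 1 ↔ Imply (Hodge T X) (Motivated T X)) ∧
      (M = 1 ↔ Imply (DeRhamBetti D X) (Motivated T X)) ∧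
      (N ≠ ⊤ → Imply (Hodge T X) (DeRhamBetti D X)) ∧
      (M ≠ ⊤ → Imply (DeRhamBetti D X) (Hodge T X)) ∧
      (N ≠ ⊤ → M ≠ ⊤ → N = M) ∧ (N ≠ ⊤ → M = ⊤ → HasLimit b h ⊤) ∧
      (M ≠ ⊤ → N = ⊤ → HasLimit h b ⊤) :=
  main T D X m h b hm hh hb

end Pool.Agent.Results.MP_caab05_ag.HodgePeriodIndex
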