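import Pool.Agent.D0H78.LG.Pol
import Pool.Agent.D0H78.LG.Semi

/-!
# One inequality decides whether all Hodge and all de Rham-Betti classes are motivated

The realizations of a polarized pure motive over an algebraically closed subfield `F` of `ℂ`. `h(n)`,
`d(n)` and `m(n)` are the numbers of the linearly independent Hodge, de Rham-Betti and weakly
motivated endomorphisms of the `n`-th tensor power.
-/

set_option autoImplicit false

open Matrix

namespace Pool.Agent.Results.MP_caab05_ag.OneInequality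

open Pool.Agent.D0H93.MT Pool.Agent.D0H78.LG

/-- The realizations of a polarized pure motive of weight `w` over `F`. -/
structure Motive (ι : Type) [Fintype ι] [DecidableEq ι] (w : ℤ) (F : Subfield ℂ) where
  /-- the Hodge structure on the Betti realization `ℚ ^ ι` -/
  S : HodgeStructure ι w
  /-- the polarization -/
  Q : Matrix ι ι ℚ
  pol : S.IsPolarization Q
  /-- the period matrix: the comparison between the de Rham realization `F ^ ι` and `ℚ ^ ι` -/
  P : Matrix ι ι ℂ
  det : IsUnit P.det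
  /-- the motivated endomorphisms of the tensor powers -/
  Mot : Family ι ℚ
  hodge : ∀ n c, Mot n c → S.IsHodge n c
  drb : ∀ n c, Mot n c → IsDRB F P n c
  cls : Mot 2 (formClass Q)

variable {ι : Type} [Fintype ι] [DecidableEq ι] {w : ℤ} {F : Subfield ℂ}

namespace Motive

variable (M : Motive ι w F)

/-- The endomorphisms which are killed by the Lie algebra of the group of the motivated
endomorphisms. -/
def WMot : Family ι ℚ := fun _ c => ∀ x ∈ ann M.Mot, Kills x c

/-- The de Rham-Betti endomorphisms. -/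
def DRB : Family ι ℚ := IsDRB F M.P

/-- The number of linearly independent Hodge endomorphisms of the `n`-th tensor power. -/
noncomputable def h (n : ℕ) : ℕ := Set.finrank ℚ {c | M.S.IsHodge n c}

/-- The number of linearly independent de Rham-Betti endomorphisms of the `n`-th tensor power. -/
noncomputable def d (n : ℕ) : ℕ := Set.finrank ℚ {c | M.DRB n c}

/-- The number of linearly independent weakly motivated endomorphisms of the `n`-th tensor
power. -/
noncomputable def m (n : ℕ) : ℕ := Set.finrank ℚ {c | M.WMot n c}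

end Motive

/-- The place from which on the inequality decides. -/
def bnd (b q C : ℕ) : ℕ := ((C + 2) * (C * q) * (b ^ 2) ^ (C * q + 1)) ^ 2

lemma finrank_set {N : Submodule ℚ (Matrix ι ι ℚ)} {n : ℕ} {X : Family ι ℚ}
    (h : ∀ c, X n c ↔ c ∈ kil N n) : Set.finrank ℚ {c | X n c} = Module.finrank ℚ (kil N n) := by
  have : {c | X n c} = (kil N n : Set (Matrix (Fin n → ι) (Fin n → ι) ℚ)) := by
    ext c
    exact h c
  rw [Set.finrank, this, Submodule.span_eq]

/-- **One inequality decides.** -/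
theorem result [Nonempty ι] [IsAlgClosed F] (M : Motive ι w F) (C n : ℕ) (hC : 1 ≤ C) :
    (∀ q : ℕ, bnd (Fintype.card ι) q C ≤ n →
      (M.h n ≤ C * M.m n → ∀ c, M.S.IsHodge q c → M.WMot q c) ∧
      (M.d n ≤ C * M.m n → ∀ c, M.DRB q c → M.WMot q c)) ∧
    (NoTypeIV (ann M.Mot) M.Q → SemisimpleDRB F M.P → bnd (Fintype.card ι) 2 C ≤ n →
      [∀ k c, (M.S.IsHodge k c → M.WMot k c) ∧ (M.DRB k c → M.WMot k c),
        ann M.Mot = ann M.S.IsHodge ∧ ann M.Mot = ann M.DRB,
        M.h n * M.d n ≤ C * M.m n ^ 2].TFAE) := by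
  have hdet := HodgeStructure.det_ne_zero M.pol
  have hinv : M.Q⁻¹ ≠ 0 := by
    intro h
    have h1 := Matrix.nonsing_inv_mul M.Q (isUnit_iff_ne_zero.2 hdet)
    rw [h, zero_mul] at h1
    obtain ⟨i⟩ := ‹Nonempty ι›
    have := congrFun (congrFun h1 i) i
    simp at this
  have hleH : ann M.S.IsHodge ≤ ann M.Mot := fun x hx n c hc => hx n c (M.hodge n c hc)
  have hleD : ann M.DRB ≤ ann M.Mot := fun x hx n c hc => hx n c (M.drb n c hc)
  have hmul : ∀ x ∈ ann M.Mot, ∃ μ : ℚ, xᵀ * M.Q + M.Q * x = μ • M.Q := fun x hx =>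
    multiplier hinv (hx 2 _ M.cls)
  have hnd := nd_of_pol M.pol hmul fun n c hc =>
    M.S.isHodge_of_killed fun x hx => hc x (hleH hx)
  have eH : ∀ n c, M.S.IsHodge n c ↔ c ∈ kil (ann M.S.IsHodge) n := fun n c =>
    ⟨fun h x hx => hx n c h, fun h => M.S.isHodge_of_killed h⟩
  have eD : ∀ n c, M.DRB n c ↔ c ∈ kil (ann M.DRB) n := fun n c =>
    ⟨fun h x hx => hx n c h, fun h => isDRB_of_killed M.det h⟩
  have eM : ∀ n c, M.WMot n c ↔ c ∈ kil (ann M.Mot) n := fun n c => Iff.rfl
  have hh : ∀ n, M.h n = Module.finrank ℚ (kil (ann M.S.IsHodge) n) := fun n =>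
    finrank_set (eH n)
  have hd : ∀ n, M.d n = Module.finrank ℚ (kil (ann M.DRB) n) := fun n => finrank_set (eD n)
  have hm : ∀ n, M.m n = Module.finrank ℚ (kil (ann M.Mot) n) := fun n => finrank_set (eM n)
  have partA : ∀ q : ℕ, bnd (Fintype.card ι) q C ≤ n →
      (M.h n ≤ C * M.m n → ∀ c, M.S.IsHodge q c → M.WMot q c) ∧
      (M.d n ≤ C * M.m n → ∀ c, M.DRB q c → M.WMot q c) := by
    intro q hq
    constructor
    · intro h c hc
      rw [hh, hm] at h
      have h1 := decide_sub hleH hnd hq hC h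
      rw [eM, ← h1]
      exact (eH q c).1 hc
    · intro h c hc
      rw [hd, hm] at h
      have h1 := decide_sub hleD hnd hq hC h
      rw [eM, ← h1]
      exact (eD q c).1 hc
  refine ⟨partA, fun hIV hss hn => ?_⟩
  have hIV1 : ∀ z ∈ ann M.Mot, (∀ x ∈ ann M.Mot, x * z = z * x) → zᵀ * M.Q = M.Q * z :=
    fun z hz h => hIV z h fun y hy => (hy z hz).symm
  have hssH := HodgeStructure.semisimple M.pol fun x hx => hmul x (hleH hx)
  have cH := tfae_core hleH (traceNondeg hssH) (isUnit_iff_ne_zero.2 hdet) hmul hIV1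
  have hssD : Semisimple (ann M.DRB) := semisimple_of M.det hss
  have cD := tfae_core (P := M.DRB) hleD (traceNondeg hssD) (isUnit_iff_ne_zero.2 hdet) hmul hIV1
  have hhm : M.m n ≤ M.h n := by
    rw [hh, hm]; exact Submodule.finrank_mono (kil_anti hleH n)
  have hdm : M.m n ≤ M.d n := by
    rw [hd, hm]; exact Submodule.finrank_mono (kil_anti hleD n)
  have hm0 : 0 < M.m n := by
    rw [hm]
    have h1 : (1 : Matrix (Fin n → ι) (Fin n → ι) ℚ) ∈ kil (ann M.Mot) n := fun x _ => by
      unfold Kills; rw [mul_one, one_mul]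
    have h2 : Nontrivial (kil (ann M.Mot) n) :=
      ⟨⟨⟨1, h1⟩, 0, fun h => one_ne_zero (congrArg Subtype.val h)⟩⟩
    exact Module.finrank_pos
  tfae_have 1 → 2 := by
    intro h
    refine ⟨le_antisymm (fun x hx k c hc => (h k c).1 hc x hx) hleH,
      le_antisymm (fun x hx k c hc => (h k c).2 hc x hx) hleD⟩
  tfae_have 2 → 3 := by
    rintro ⟨h1, h2⟩
    rw [hh, hd, hm, ← h1, ← h2, sq]
    exact Nat.le_mul_of_pos_left _ hC
  tfae_have 3 → 1 := by
    intro h
    have h1 : M.h n ≤ C * M.m n := by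
      by_contra h2
      push Not at h2
      have h3 : C * M.m n * M.m n < M.h n * M.d n :=
        lt_of_lt_of_le (Nat.mul_lt_mul_of_pos_right h2 hm0) (Nat.mul_le_mul_left _ hdm)
      rw [sq, ← mul_assoc] at h
      exact absurd h (not_le.2 h3)
    have h2 : M.d n ≤ C * M.m n := by
      by_contra h2
      push Not at h2
      have h3 : M.m n * (C * M.m n) < M.h n * M.d n :=
        lt_of_lt_of_le (Nat.mul_lt_mul_of_pos_left h2 hm0) (Nat.mul_le_mul_right _ hhm)
      have h4 : C * M.m n ^ 2 = M.m n * (C * M.m n) := by ring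
      rw [h4] at h
      exact absurd h (not_le.2 h3)
    have h3 := partA 2 hn
    have e1 : ann M.Mot = ann M.S.IsHodge := cH.1.2 fun c hc => h3.1 h1 c ((eH 2 c).2 hc)
    have e2 : ann M.Mot = ann M.DRB := cD.1.2 fun c hc => h3.2 h2 c ((eD 2 c).2 hc)
    intro k c
    refine ⟨fun hc => ?_, fun hc => ?_⟩
    · rw [eM, e1]; exact (eH k c).1 hc
    · rw [eM, e2]; exact (eD k c).1 hc
  tfae_finish

end Pool.Agent.Results.MP_caab05_ag.OneInequality
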