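import Pool.Agent.D0H78.KG.Base
import Pool.Agent.D0H78.KG.Der

/-!
# The Grothendieck period conjecture as a law for numbers

For a smooth projective variety `X` over a subfield `F` of `ℂ` with `b = dim H^*(X)` let `p(n)` be the
number of the monomials of degree `n` in the periods which are linearly independent over `F`, `m(n)` the
dimension of the space of the endomorphisms of `H^*(X) ^ ⊗n` fixed by the motivic Galois group, `t` the
transcendence degree of the periods and `g` the dimension of the motivic Galois group. Then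
`p(n) m(n) ^ 2 / b ^ (4 n)` lies between `c n ^ (t - g)` and `C n ^ (t - g)`.
-/

set_option autoImplicit false

open Matrix Filter

namespace Pool.Agent.Results.MP_caab05_ag.PeriodNumberLaw

open Pool.Agent.D0H93.MT Pool.Agent.D0H78.LG Pool.Agent.D0H78.KG

/-- The realizations of the motive `h(X)` of a smooth projective connected variety `X` over `F`. The
Betti realization `H^*(X, ℚ)` is `ℚ ^ ι`, the de Rham realization `F ^ ι`, in bases which are adapted to
the grading; the basis vector `e_o` is the unit of `H^0`. -/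
structure Realizations (ι : Type) [Fintype ι] [DecidableEq ι] (F : Subfield ℂ) where
  /-- the period matrix -/
  P : Matrix ι ι ℂ
  det : IsUnit P.det
  o : ι
  unit : P *ᵥ Pi.single o 1 = Pi.single o 1
  /-- the motivated endomorphisms of the tensor powers of `H^*(X, ℚ)` -/
  Mot : Family ι ℚ
  /-- the projector onto `H^0` is motivated -/
  proj : Mot 1 (one' (Matrix.single o o 1))
  /-- the motivated endomorphisms are defined over `F` in the de Rham realization -/
  drb : ∀ n c, Mot n c → IsDRB F P n c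
  /-- the Weil operator -/
  C : Matrix ι ι ℝ
  /-- the motivated endomorphisms commute with the Weil operator -/
  weil : ∀ n c, Mot n c → Fixes C (bc ℝ c)
  /-- the form which is a polarization on each `H^i` -/
  Q : Matrix ι ι ℚ
  pos : (Cᵀ * bc ℝ Q).PosDef
  /-- the adjoint of a motivated endomorphism for the form `Q` is motivated -/
  adj : ∀ n c, Mot n c → Mot n (tpow n Q⁻¹ * cᵀ * tpow n Q)

namespace Realizations

variable {ι : Type} [Fintype ι] [DecidableEq ι] {F : Subfield ℂ} (X : Realizations ι F)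

/-- The transcendence degree over `F` of the field generated by the periods. -/
noncomputable def t : ℕ :=
  Cardinal.toNat (Algebra.trdeg F
    (IntermediateField.adjoin F (Set.range fun q : ι × ι => X.P q.1 q.2)))

/-- The dimension of the motivic Galois group. -/
noncomputable def g : ℕ := Module.finrank ℂ (LieG X.Mot X.o)

/-- The number of the monomials of degree `n` in the periods which are linearly independent
over `F`. -/
noncomputable def p (n : ℕ) : ℕ :=
  Set.finrank F (Set.range fun J : Fin n → ι × ι => ∏ k, X.P (J k).1 (J k).2)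

/-- The dimension of the space of the endomorphisms of the `n`-th tensor power which are fixed by
the motivic Galois group. -/
noncomputable def m (n : ℕ) : ℕ := Module.finrank ℂ (IG X.Mot X.o n)

/-- The number `p(n) m(n) ^ 2 / b ^ (4 n)`. -/
noncomputable def r (n : ℕ) : ℝ :=
  (X.p n : ℝ) * (X.m n : ℝ) ^ 2 / (Fintype.card ι : ℝ) ^ (4 * n)

end Realizations

variable {ι : Type} [Fintype ι] [DecidableEq ι] {F : Subfield ℂ}

/-- **The period conjecture as a law for numbers.** -/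
theorem result (X : Realizations ι F) :
    X.t ≤ X.g ∧
    (∃ c C : ℝ, 0 < c ∧ 0 < C ∧ ∀ n : ℕ, 1 ≤ n →
      c / (n : ℝ) ^ (X.g - X.t) ≤ X.r n ∧ X.r n ≤ C / (n : ℝ) ^ (X.g - X.t)) ∧
    [X.t = X.g,
      ∃ ε : ℝ, 0 < ε ∧ ∀ n : ℕ, 1 ≤ n → ε ≤ X.r n,
      ∃ ε : ℝ, 0 < ε ∧ ∃ᶠ n in atTop, ε ≤ X.r n,
      ¬ ∃ C : ℝ, ∀ n : ℕ, 1 ≤ n → X.r n ≤ C / n].TFAE := by
  have hle : X.t ≤ X.g := td_le X.det X.unit X.drb
  have hb : (0 : ℝ) < Fintype.card ι := by
    have : 0 < Fintype.card ι := Fintype.card_pos_iff.2 ⟨X.o⟩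
    exact_mod_cast this
  have hlaw : ∃ c C : ℝ, 0 < c ∧ 0 < C ∧ ∀ n : ℕ, 1 ≤ n →
      c / (n : ℝ) ^ (X.g - X.t) ≤ X.r n ∧ X.r n ≤ C / (n : ℝ) ^ (X.g - X.t) := by
    obtain ⟨c₁, C₁, hc₁, hC₁, h1⟩ := growth X.pos X.weil X.adj X.proj
    have hPoo : entries X.P (X.o, X.o) = 1 := by
      have h2 := congrFun X.unit X.o
      rw [Matrix.mulVec_single_one, Pi.single_eq_same] at h2
      exact h2
    obtain ⟨c₂, C₂, hc₂, hC₂, h2⟩ := Hil.growth (K := F) (entries X.P) hPoo
    refine ⟨c₂ * c₁ ^ 2, C₂ * C₁ ^ 2, by positivity, by positivity, fun n hn => ?_⟩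
    have hn0 : (0 : ℝ) < n := by exact_mod_cast hn
    obtain ⟨a1, a2⟩ := h1 n hn
    obtain ⟨a3, a4⟩ := h2 n hn
    have e1 : Module.finrank ℂ (IG X.Mot X.o n) = X.m n := rfl
    have e2 : Module.finrank ℂ (LieG X.Mot X.o) = X.g := rfl
    have e3 : Hil.td F (entries X.P) = X.t := rfl
    have e4 : Set.finrank F (Hil.prods (entries X.P) n) = X.p n := rfl
    rw [e1, e2] at a1 a2
    rw [e3, e4] at a3 a4
    have hsq : (Real.sqrt n ^ X.g) ^ 2 = (n : ℝ) ^ X.g := by
      rw [← pow_mul, mul_comm, pow_mul, Real.sq_sqrt hn0.le]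
    have hbb : ((Fintype.card ι : ℝ) ^ (2 * n)) ^ 2 = (Fintype.card ι : ℝ) ^ (4 * n) := by
      rw [← pow_mul]
      congr 1
      ring
    have b1 : c₁ ^ 2 * (Fintype.card ι : ℝ) ^ (4 * n) ≤ (X.m n : ℝ) ^ 2 * (n : ℝ) ^ X.g := by
      have := pow_le_pow_left₀ (by positivity) a1 2
      rwa [mul_pow, mul_pow, hsq, hbb] at this
    have b2 : (X.m n : ℝ) ^ 2 * (n : ℝ) ^ X.g ≤ C₁ ^ 2 * (Fintype.card ι : ℝ) ^ (4 * n) := by
      have := pow_le_pow_left₀ (by positivity) a2 2
      rwa [mul_pow, mul_pow, hsq, hbb] at this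
    have hg : (n : ℝ) ^ X.g = (n : ℝ) ^ (X.g - X.t) * (n : ℝ) ^ X.t := by
      rw [← pow_add, Nat.sub_add_cancel hle]
    have hnt : (0 : ℝ) < (n : ℝ) ^ X.t := by positivity
    have hB : (0 : ℝ) < (Fintype.card ι : ℝ) ^ (4 * n) := by positivity
    have hN : (0 : ℝ) < (n : ℝ) ^ (X.g - X.t) := by positivity
    have hp0 : (0 : ℝ) ≤ X.p n := Nat.cast_nonneg _
    constructor
    · rw [Realizations.r, div_le_div_iff₀ hN hB]
      have c1 : (c₂ * (n : ℝ) ^ X.t) * (c₁ ^ 2 * (Fintype.card ι : ℝ) ^ (4 * n)) ≤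
          X.p n * ((X.m n : ℝ) ^ 2 * (n : ℝ) ^ X.g) :=
        mul_le_mul a3 b1 (by positivity) hp0
      rw [hg] at c1
      refine le_of_mul_le_mul_right ?_ hnt
      calc _ = (c₂ * (n : ℝ) ^ X.t) * (c₁ ^ 2 * (Fintype.card ι : ℝ) ^ (4 * n)) := by ring
        _ ≤ _ := c1
        _ = _ := by ring
    · rw [Realizations.r, div_le_div_iff₀ hB hN]
      have c1 : X.p n * ((X.m n : ℝ) ^ 2 * (n : ℝ) ^ X.g) ≤
          (C₂ * (n : ℝ) ^ X.t) * (C₁ ^ 2 * (Fintype.card ι : ℝ) ^ (4 * n)) :=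
        mul_le_mul a4 b2 (by positivity) (by positivity)
      rw [hg] at c1
      refine le_of_mul_le_mul_right ?_ hnt
      calc _ = X.p n * ((X.m n : ℝ) ^ 2 * ((n : ℝ) ^ (X.g - X.t) * (n : ℝ) ^ X.t)) := by ring
        _ ≤ _ := c1
        _ = _ := by ring
  refine ⟨hle, hlaw, ?_⟩
  obtain ⟨c, C, hc, hC, h⟩ := hlaw
  tfae_have 1 → 2 := by
    intro he
    refine ⟨c, hc, fun n hn => ?_⟩
    have := (h n hn).1
    rwa [he, Nat.sub_self, pow_zero, div_one] at this
  tfae_have 2 → 3 := by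
    rintro ⟨ε, hε, h2⟩
    exact ⟨ε, hε, (eventually_atTop.2 ⟨1, fun n hn => h2 n hn⟩).frequently⟩
  tfae_have 3 → 4 := by
    rintro ⟨ε, hε, h2⟩ ⟨C', h3⟩
    have h4 : ∀ᶠ n : ℕ in atTop, C' / n < ε := by
      have h5 : Tendsto (fun n : ℕ => C' / (n : ℝ)) atTop (nhds 0) :=
        tendsto_const_div_atTop_nhds_zero_nat C'
      exact h5.eventually_lt_const hε
    obtain ⟨n, hn1, hn2, hn3⟩ := (h2.and_eventually (h4.and (eventually_ge_atTop 1))).exists
    exact absurd (hn1.trans (h3 n hn3)) (not_le.2 hn2)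
  tfae_have 4 → 1 := by
    intro h2
    by_contra hne
    have hlt : 1 ≤ X.g - X.t := by omega
    refine h2 ⟨C, fun n hn => ((h n hn).2).trans ?_⟩
    have hn0 : (0 : ℝ) < n := by exact_mod_cast hn
    refine div_le_div_of_nonneg_left hC.le hn0 ?_
    have h3 : (n : ℝ) ^ 1 ≤ (n : ℝ) ^ (X.g - X.t) :=
      pow_le_pow_right₀ (by exact_mod_cast hn) hlt
    rwa [pow_one] at h3
  tfae_finish

end Pool.Agent.Results.MP_caab05_ag.PeriodNumberLaw
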