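import Pool.Agent.D0H89.GC.Vis
import Pool.Agent.N113.BT.Spin

set_option autoImplicit false

/-!
# The torsors of periods of motives with several noncompact factors of rigid types

Let `A` be an abelian variety over `ℚ̄` and let `M` be any André motive over `ℚ̄` in the tensor
category generated by `h^1(A)` and the Tate motives. Let `P` be the matrix of the periods of `M`, and
let `G ⊆ GL(H_B(M))` be *any* algebraic group over `ℚ` such that the comparison isomorphism is a
point of a torsor of `G` defined over `ℚ̄`: `P T ∈ G(ℂ)` for some matrix `T` with algebraic entries. By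
theorems of Deligne and André the motivic Galois group of `M` is the Mumford-Tate group `MT(M)`. The
equality in Q1 implies that every such `G` contains `MT(M)` (if `G` does not contain the connected
group `MT(M)`, then the intersection of the two groups has smaller dimension, and the transcendence
degree of the periods is at most this dimension); this is also equivalent to: all de Rham-Betti
classes in the tensor constructions of `M` are Hodge classes.

We prove that `G` contains the derived group of `MT(M)`, and `MT(M)` if the centre does not
contribute, for motives whose Mumford-Tate domain is a product of discs, of balls of odd dimension, and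
of domains of type IV of dimension at least four (in any number, with the `ℚ`-structure arbitrary).

## The theorem

Let `𝔤` be the Lie algebra of the endomorphisms of `H_1(A, ℚ)` which annihilate all classes that are
Hodge classes and de Rham-Betti classes (`InLie`); it is the Lie algebra of the Hodge group of `A`.

**Colours** (`IsColouring`). The colours are different simple ideals `K i`, `i ∈ ι`, of the complex
Lie algebra `𝔤 ⊗ ℂ`, which are permuted by the automorphisms of the field `ℂ`. For example the ideals
which act nontrivially on `M`. A colour is compact if it commutes with the complex structure of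
`H_1(A, ℝ)`.

**Rigid types** (`IsRigid`). We assume that every colour is conjugate by an automorphism of `ℂ` to a
colour `K k` which

* has dimension three (type `A_1`), or
* acts nontrivially on a spin part of `H_1(A, ℂ)` (`SpinPart`): a direct summand on which `𝔤` acts by
  scalars and by the sum of some orthogonal Lie algebras `so(r)`, `r ≥ 6`, in the tensor product of
  their spin representations, or
* acts nontrivially on a middle exterior part of `H_1(A, ℂ)` (`MiddlePart`): a direct summand on which
  `𝔤` acts by scalars and by the sum of some Lie algebras `sl(2m)`, in the tensor product of the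
  exterior powers `⋀^m` of their standard representations.

**Linkings** (`IsLinking`, `Unlinked`). A *linking* is an equivalence relation `~` on the colours,
together with isomorphisms `θ i k : K i → K k` for `i ~ k`, compatible with each other and with the
automorphisms of `ℂ`, such that compact colours are equivalent only to compact colours, and which is
*invisible* in `H_1(A)`: all endomorphisms `T` of `H_1(A, ℂ)` which commute with the elements of
`𝔤 ⊗ ℂ` whose components correspond to each other by `θ` commute with `𝔤 ⊗ ℂ`. The colouring is
*unlinked* if there are no linkings of different colours.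

**The domain of `M`** (`DomainOf`). We assume that the elements of `[𝔤, 𝔤] ⊗ ℂ` which commute with the
colours act on `M` by matrices which commute with the complex structure `N` of `M`. (For example, if
the colours together with the centre generate `𝔤 ⊗ ℂ`, then this holds for all `M`.)

**Theorem.**

1. If the number of the conjugates of every colour is prime to the number of the noncompact ones
   among them, and if these two numbers and the dimension determine the orbit of the colour, then the
   colouring is unlinked.
2. If the colouring is unlinked and the colours are conjugate to colours of rigid types, and `M`, `G`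
   are as above, then `G` contains the derived group of `MT(M)`: for all elements `Z` of the derived
   algebra of the Lie algebra of the Hodge group of `M`, and all complex numbers `t`, the matrix
   `exp (t Z)` is in `G`. If moreover `A` has no factor of type IV, or the centre of the Lie algebra of
   the Hodge group acts trivially on `M`, then `G` contains `MT(M)`.

## Which motives are these? (Explanations, not part of the statement)

Let `M` be **any** motive of abelian type over `ℚ̄` whose Mumford-Tate domain is a product of discs, of
balls of odd dimension and of domains of type IV of dimension at least four; so the noncompact factors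
of the adjoint real group are of the form `PU(1, 1)`, `PU(1, 2m - 1)` or `SO(2, r - 2)` with `r ≥ 6`.
Then the theorem applies to `M`, for a suitable abelian variety `A`. Let `M` be in the category of
`h^1(A')`.

*Rigid types.* By the classification of Satake and Deligne there are abelian varieties over `ℚ̄`, with
the same adjoint Hodge group as `M`, whose homology is the sum of the spin representations (middle
exterior powers, standard representations for `A_1`) of the simple ideals, with scalars.

*Linkings can be made visible* by the half twists of Deligne. A linking of colours belongs to a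
totally real field `F₀`, contained in the fields of definition `F` of the colours, such that a place of
`F` is compact if and only if all places of `F` above the same place of `F₀` are compact. Choose a CM
field `K₀` over `F₀`, and let `A''` be the abelian variety whose homology consists of the
representations above, tensored over `F₀` with `K₀`, where the Hodge structure is twisted at the compact
places by a CM type of `K₀`. The centre of the Hodge group of `A''` acts on the parts of
`H_1(A'', ℂ)` by characters which depend only on the embedding of `K₀`. So there are two parts for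
different equivalent colours with the same scalars, and the isomorphism `θ` gives an isomorphism
of (parts of) them, which commutes with the diagonal subalgebra and not with `𝔤`. So the linking is
visible in `A''`. There are finitely many relations `~`; so there is `A = A' × A₁ × ... × A_q` for which
the colouring is unlinked.

Examples of such motives:

* all motives on quaternionic Shimura varieties (`A_1`, quotients of products of upper half planes by
  quaternionic arithmetic groups), for all totally real fields and all signatures;
* products of arbitrary K3 surfaces (hyperkähler varieties, cubic fourfolds, ...) whose transcendental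
  lattices have rank different from five over their endomorphism field, if it is totally real, and
  even rank (or rank one), if it is a CM field;
* products of arbitrary abelian varieties of Mumford's type, of abelian fourfolds of Weil type, of
  elliptic curves, of abelian varieties with quaternionic multiplication of type `A_1`, of Jacobians of
  the general curves `y ^ 3 = f(x)` of genus four, ... and of varieties as above;
* motives on orthogonal Shimura varieties over totally real fields with several noncompact places,
  and on the Shimura varieties of unitary groups with signatures `(1, 2m - 1)` at several places and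
  definite at the others.

A de Rham-Betti class on a product which is not a Hodge class could come from a hidden relation
between the factors: the theorem for the factors does not imply the theorem for the product.

What is missing are the simple factors of type `C`, of type `D^ℍ`, and of type `A` with other
signatures. Then the theorem of Schneider and Lang (Wüstholz) cannot exclude that the Lie algebra of `G`
is a proper subalgebra which acts irreducibly on the relevant representations.

Known before (starting library): one spin part or middle exterior part which controls the domain; then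
all but one of the simple factors are compact (`SpinDomainMotives`, `BallMotives`); abelian varieties
with maximal real multiplication; products of K3 surfaces with one Kuga-Satake variety
(`ProductsOfK3`). The links were excluded there by one representation which contains all colours.
New here are: several noncompact factors with a common `ℚ`-structure, products of different types,
the use of the real structure and of the Galois group to exclude links, and that rigidity is
needed only for one colour of every orbit.

Nothing is assumed about periods: `AbVar` is the description of an abelian variety over `ℚ̄` by theta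
functions (see `Pool/Agent/Y102/AVDefs.lean`, where it is explained why every abelian variety has it),
and the transcendence theorems which are used, the theorem of Schneider and Lang and the
transcendence of `π`, are proved in this repository. The group `G` is not assumed to be reductive.

## Motives

As `h^1(A)` is dual to `h^1(A)(1)`, the motive `M` is a direct factor of a sum of motives
`h^1(A) ^ {⊗ r i} (w i)`. Its Betti realization is a space of families of multilinear forms with
rational values, in `r i` variables in `H_1(A, ℚ)`, with a basis `B`. It is the image of a motivated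
projector, and the realizations of motivated classes are Hodge classes and de Rham-Betti classes; so
it is stable under `𝔤` (`InLie`), and under the weights. The de Rham realization has a basis which
consists of combinations of products of elements of `H^1_dR(A / ℚ̄)` with algebraic coefficients. The
matrix `P` of the periods expresses it in terms of the basis `(2 π i) ^ (w i) B` of the Betti
realization (`IsMotive`).

## Proof

Let `L` be the Lie algebra of `G`, and let `𝔮` be the set of the `X` in `𝔤` whose action on `M` is in
`L` up to a multiple of the weight operator. By the theorem of Schneider and Lang `𝔮` acts semisimply on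
`H_1(A, ℚ)`, with the same commutant as `𝔤` (`Pool.Agent.N208.AM.qM_full`).

1. The form `tr (X J Ȳ J)` is positive definite on `𝔤 ⊗ ℂ` (`Rl.pos_c`). Different simple ideals are
   orthogonal for the trace form, so the colours are stable under the complex conjugation
   (`Cs.conj_mem`), the trace form is not degenerate on the colours, and the elements of `𝔤 ⊗ ℂ` have
   components (`Cs.cl`).
2. `𝔮 ⊗ ℂ` projects onto every colour. If the dimension is three, otherwise the image is
   commutative, as perfect Lie algebras of dimension at most two are zero, and some `a ≠ 0` in `K i`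
   commutes with `𝔮` and so with `𝔤` (`Cl.sur3`). For spin parts and middle exterior parts it follows
   from their rigidity (`Pool.Agent.N113.BT.RigPart.surj`, of helper113): the kernel of the action
   on the part is an ideal of `K i` (`sur_rg`). For conjugate colours we use that `𝔮` is rational
   (`sur_conj`).
3. Let `i ~ k` if the elements of `𝔮 ⊗ ℂ` which commute with `K k` commute with `K i`. By the lemma of
   Goursat this is an equivalence relation, and the components `ξ i` and `ξ k` of the elements of
   `𝔮 ⊗ ℂ` correspond to each other by an isomorphism `θ` (`Cl.lk_equiv`, `Cl.exists_iso`). It is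
   compatible with the automorphisms of `ℂ`, as `𝔮` is rational, and invisible, as `𝔮` and `𝔤` have the
   same commutant (`lnkg_of`).
4. A compact colour `i` is not linked with a noncompact colour `k` (`Cl.compact_of_lk`): there is a real
   element `Z = [J, Y]` of `K k`, with `J Z = - Z J`. Its adjoint action on `𝔤 ⊗ ℂ` is self-adjoint
   for the hermitian form, so it has a nonzero real eigenvalue on `K k` (`Cl.exists_eig`). The
   corresponding real element `W` of `K i` commutes with `J`, its adjoint action is skew-adjoint, so
   its eigenvalues are imaginary; but they are the eigenvalues of `Z`.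
5. So the relation is a linking, and by the assumption different colours are not linked. By the
   lemma of Ribet `𝔮 ⊗ ℂ` projects onto the sum of the colours (`Cl.ribet`). So `[𝔤, 𝔤] ⊗ ℂ` is
   contained in the sum of `[𝔮, 𝔮] ⊗ ℂ` and of the ideal of the elements which commute with the colours
   (`der_full2`). The theorem follows by a lemma on real Lie algebras of helper113
   (`Pool.Agent.N113.BT.mem_of_sup`).
6. For the first part of the theorem: in an orbit all classes have the same number `b` of elements, and
   the set of the noncompact colours is a union of classes. So `b` divides both numbers, and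
   `b = 1`. If two colours of different orbits are linked, then the link is a bijection of the orbits
   which respects the dimensions and the compact colours.
-/

open Module Matrix Pool.Agent.Y102 Pool.Agent.W516.DR Pool.Agent.H204R3.GP

noncomputable section

namespace Pool.Agent.Results.MP_caab05_ag.RigidTypeMotives

variable {g : ℕ} (A : AbVar g)

/-! ### The Lie algebra -/

/-- `X` is in the Lie algebra `𝔤`: it annihilates (as a derivation) all the multilinear forms `ψ` in
`2m` variables in the rational homology, that is the elements of `H^1(A) ^ {⊗ 2m} (m)`, which are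
Hodge classes and de Rham-Betti classes. -/
def InLie (X : Module.End ℚ A.H1) : Prop :=
  ∀ (m : ℕ) (ψ : MultilinearMap ℚ (fun _ : Fin m × Fin 2 => A.H1) ℚ),
    IsHodgeTensor (A.per : A.H1 →+ (Fin g → ℂ)) ψ →
    IsDeRhamBettiForm QBar A.dR (2 * Real.pi * Complex.I) m ψ →
    ∀ v, ∑ k, ψ (Function.update v k (X (v k))) = 0

/-- The algebra of the endomorphisms of `H_1(A, ℂ)`, as matrices for the basis of the lattice. -/
abbrev EndC (_ : AbVar g) : Type := Matrix (Fin (2 * g)) (Fin (2 * g)) ℂ

/-- The matrix of the extension of an endomorphism of `H_1(A, ℚ)` to `H_1(A, ℂ)`. -/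
def toC (X : Module.End ℚ A.H1) : EndC A := Matrix.of fun i j => (X (Pi.single j 1) i : ℂ)

/-- The complex Lie algebra `𝔤 ⊗ ℂ`, acting on `H_1(A, ℂ)`. -/
def lieC : Submodule ℂ (EndC A) := Submodule.span ℂ {Y | ∃ X, InLie A X ∧ Y = toC A X}

/-- The complex structure, the multiplication with `i` on `H_1(A, ℝ) = ℂ ^ g`. -/
def complexStructure : EndC A :=
  Matrix.of fun i j => ((A.lam.repr (Complex.I • A.lam j) i : ℝ) : ℂ)

variable {A} in
/-- `X` commutes with the elements of `L`. -/
def Commutes (L : Submodule ℂ (EndC A)) (X : EndC A) : Prop := ∀ a ∈ L, X * a = a * X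

/-! ### Colours -/

section Colours

variable {A} {ι : Type} (K : ι → Submodule ℂ (EndC A))

/-- The automorphism `τ` of the field `ℂ` maps the colour `i` to the colour `k`. -/
def Maps (τ : ℂ ≃+* ℂ) (i k : ι) : Prop := ∀ x ∈ K i, x.map τ ∈ K k

/-- The colours `i` and `k` are conjugate by an automorphism of the field `ℂ`. -/
def Conjugate (i k : ι) : Prop := ∃ τ, Maps K τ i k

/-- **A colouring**: a family of different simple ideals of `𝔤 ⊗ ℂ`, which is stable under the
automorphisms of the field `ℂ`. -/
structure IsColouring : Prop where
  /-- the `K i` are ideals of `𝔤 ⊗ ℂ` -/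
  le : ∀ i, K i ≤ lieC A
  ideal : ∀ i, ∀ X ∈ lieC A, ∀ a ∈ K i, X * a - a * X ∈ K i
  /-- they are simple Lie algebras -/
  simple : ∀ i, ∀ L ≤ K i, (∀ a ∈ K i, ∀ b ∈ L, a * b - b * a ∈ L) → L = ⊥ ∨ L = K i
  nonabelian : ∀ i, ∃ a ∈ K i, ∃ b ∈ K i, a * b ≠ b * a
  /-- they are different from each other -/
  injective : Function.Injective K
  /-- the automorphisms of `ℂ` permute them -/
  galois : ∀ τ i, ∃ k, Maps K τ i k

/-- The colour `i` is compact: it commutes with the complex structure. -/
def IsCompact (i : ι) : Prop := Commutes (K i) (complexStructure A)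

variable {K} in
/-- The map `θ` restricts to an isomorphism of the Lie algebras `L` and `L'`. -/
structure IsIsomorphism (L L' : Submodule ℂ (EndC A)) (θ : EndC A → EndC A) : Prop where
  mem : ∀ x ∈ L, θ x ∈ L'
  add : ∀ x ∈ L, ∀ y ∈ L, θ (x + y) = θ x + θ y
  smul : ∀ (c : ℂ), ∀ x ∈ L, θ (c • x) = c • θ x
  bracket : ∀ x ∈ L, ∀ y ∈ L, θ (x * y - y * x) = θ x * θ y - θ y * θ x
  injective : ∀ x ∈ L, θ x = 0 → x = 0
  surjective : ∀ y ∈ L', ∃ x ∈ L, θ x = y

/-- The `ξ i` in `K i` are the components of `X`: the difference of `X` and the sum of the `ξ i`
commutes with the colours. -/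
def HasComponents [Fintype ι] (X : EndC A) (ξ : ι → EndC A) : Prop :=
  (∀ i, ξ i ∈ K i) ∧ ∀ i, Commutes (K i) (X - ∑ k, ξ k)

/-- **A linking** of the colours: an equivalence relation, with isomorphisms of equivalent colours. -/
structure IsLinking [Fintype ι] (r : ι → ι → Prop) (θ : ι → ι → EndC A → EndC A) : Prop where
  equivalence : Equivalence r
  /-- equivalent colours are isomorphic, by `θ` -/
  isomorphism : ∀ i k, r i k → IsIsomorphism (K i) (K k) (θ i k)
  /-- the isomorphisms are compatible -/
  trans : ∀ i k l, r i k → r k l → ∀ x ∈ K i, θ k l (θ i k x) = θ i l x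
  /-- the relation and the isomorphisms are stable under the automorphisms of `ℂ` -/
  galois : ∀ τ i k i' k', Maps K τ i i' → Maps K τ k k' → r i k →
    r i' k' ∧ ∀ x ∈ K i, (θ i k x).map τ = θ i' k' (x.map τ)
  /-- compact colours are linked only with compact colours -/
  compact : ∀ i k, r i k → IsCompact K i → IsCompact K k
  /-- it is invisible: the commutant of the diagonal subalgebra is the commutant of `𝔤 ⊗ ℂ` -/
  invisible : ∀ T : EndC A, (∀ X ∈ lieC A, ∀ ξ, HasComponents K X ξ →
    (∀ i k, r i k → θ i k (ξ i) = ξ k) → T * X = X * T) → ∀ X ∈ lieC A, T * X = X * T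

/-- There are no links between different colours. -/
def Unlinked [Fintype ι] : Prop := ∀ r θ, IsLinking K r θ → ∀ i k, r i k → i = k

/-- The number of the conjugates of every colour is prime to the number of the noncompact ones among
them, and these two numbers and the dimension of the colour determine the orbit of the colour. -/
def CoprimeNumbers : Prop :=
  (∀ i, Nat.Coprime (Nat.card {k // Conjugate K i k})
    (Nat.card {k // Conjugate K i k ∧ ¬ IsCompact K k})) ∧
  ∀ i k, finrank ℂ (K i) = finrank ℂ (K k) →
    Nat.card {l // Conjugate K i l} = Nat.card {l // Conjugate K k l} →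
    Nat.card {l // Conjugate K i l ∧ ¬ IsCompact K l} =
      Nat.card {l // Conjugate K k l ∧ ¬ IsCompact K l} → Conjugate K i k

end Colours

/-! ### Rigid types -/

/-- **A spin part** `W` of `H_1(A, ℂ)`: `P` is the inclusion of `W`, a space of dimension `d`, and `Q` is
a projection to `W`; the projector `P * Q` commutes with `𝔤`. The `E i` are anticommuting
endomorphisms of `W` with square `1`, divided into blocks by the map `c`; every block which occurs has
at least six elements. The Lie algebra `𝔤` acts on `W` (by `Q * toC A X * P`) by combinations of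
products of two different elements of the same block and scalars, and the associative algebra
generated by `𝔤 ⊗ ℂ` contains elements which act on `W` like these products. -/
structure SpinPart {N k d : ℕ} (E : Fin N → Matrix (Fin d) (Fin d) ℂ) (c : Fin N → Fin k)
    (P : Matrix (Fin (2 * g)) (Fin d) ℂ) (Q : Matrix (Fin d) (Fin (2 * g)) ℂ) : Prop where
  /-- the relations of the Clifford algebra -/
  square : ∀ i, E i * E i = 1
  anti : ∀ i j, i ≠ j → E i * E j = -(E j * E i)
  /-- every block which occurs has at least six elements -/
  six : ∀ i, 6 ≤ (Finset.univ.filter fun j => c j = c i).card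
  /-- `Q` is a projection to the summand -/
  proj : Q * P = 1
  /-- the image of `P * Q` and its complement are stable under `𝔤` -/
  stable : ∀ X, InLie A X → P * Q * toC A X = toC A X * (P * Q)
  /-- `𝔤` acts through the sum of the orthogonal Lie algebras and the scalars -/
  acts : ∀ X, InLie A X → ∃ t : ℂ, Q * toC A X * P + t • (1 : Matrix (Fin d) (Fin d) ℂ) ∈
    Submodule.span ℂ {Y | ∃ i j, i ≠ j ∧ c i = c j ∧ Y = E i * E j}
  /-- the associative algebra generated by `𝔤 ⊗ ℂ` -/
  generates : ∀ i j, i ≠ j → c i = c j → ∃ Y ∈ Algebra.adjoin ℂ (lieC A : Set (EndC A)),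
    E i * E j = Q * Y * P

/-- The action of the matrix `x` on the exterior algebra of the block `σ`, in terms of creation and
annihilation operators. -/
def quant {N k n : ℕ} (a b : Fin k → Fin n → Matrix (Fin N) (Fin N) ℂ) (σ : Fin k)
    (x : Matrix (Fin n) (Fin n) ℂ) : Matrix (Fin N) (Fin N) ℂ :=
  ∑ i, ∑ j, x i j • (a σ i * b σ j)

/-- **A middle exterior part** of `H_1(A, ℂ)`, with `k` blocks: the projector `P * Q` commutes with
`𝔤`; the map `Q` identifies its image `W` with the space of the vectors with `m` particles of each
block (the number operator of the block `σ` is `quant a b σ 1`), for some operators `a`, `b` which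
satisfy the canonical anticommutation relations with `2 m` modes of each block, and `P` is the inverse
of `Q` on this space. The Lie algebra `𝔤` acts on `W` by elements of the sum of the `k` Lie algebras
`sl(2m)` and scalars, and the associative algebra generated by `𝔤 ⊗ ℂ` contains elements which act on
`W` like `a σ i * b σ j`. -/
structure MiddlePart {N k m : ℕ} (a b : Fin k → Fin (2 * m) → Matrix (Fin N) (Fin N) ℂ)
    (P : Matrix (Fin (2 * g)) (Fin N) ℂ) (Q : Matrix (Fin N) (Fin (2 * g)) ℂ) : Prop where
  /-- the canonical anticommutation relations -/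
  aa : ∀ σ i τ j, a σ i * a τ j = -(a τ j * a σ i)
  bb : ∀ σ i τ j, b σ i * b τ j = -(b τ j * b σ i)
  ab : ∀ σ i τ j, a σ i * b τ j + b τ j * a σ i = if σ = τ ∧ i = j then 1 else 0
  /-- `P * Q` and `Q * P` are projectors -/
  left : P * Q * P = P
  right : Q * P * Q = Q
  /-- the image of `Q` is the space of the vectors with `m` particles of each block -/
  middle : ∀ v, (∃ u, v = Q.mulVec u) ↔ ∀ σ, (quant a b σ 1).mulVec v = (m : ℂ) • v
  /-- the image of `P * Q` and its complement are stable under `𝔤` -/
  stable : ∀ X, InLie A X → P * Q * toC A X = toC A X * (P * Q)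
  /-- `𝔤` acts through the sum of the Lie algebras `sl(2m)` and the scalars -/
  acts : ∀ X, InLie A X → ∃ c : ℂ, P * Q * toC A X + c • (P * Q) ∈
    Submodule.span ℂ {Y | ∃ σ x, Matrix.trace x = 0 ∧ Y = P * quant a b σ x * Q}
  /-- the associative algebra generated by `𝔤 ⊗ ℂ` -/
  generates : ∀ σ i j, ∃ Y ∈ Algebra.adjoin ℂ (lieC A : Set (EndC A)),
    P * (a σ i * b σ j) * Q = P * Q * Y

/-- **The rigid types**: the Lie algebra `L` has dimension three, or it acts nontrivially on a spin
part or on a middle exterior part of `H_1(A, ℂ)`. -/
def IsRigid (L : Submodule ℂ (EndC A)) : Prop :=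
  finrank ℂ L = 3 ∨
  (∃ (N k d : ℕ) (E : Fin N → Matrix (Fin d) (Fin d) ℂ) (c : Fin N → Fin k)
    (P : Matrix (Fin (2 * g)) (Fin d) ℂ) (Q : Matrix (Fin d) (Fin (2 * g)) ℂ),
    SpinPart A E c P Q ∧ ∃ x ∈ L, Q * x * P ≠ 0) ∨
  ∃ (N k m : ℕ) (a b : Fin k → Fin (2 * m) → Matrix (Fin N) (Fin N) ℂ)
    (P : Matrix (Fin (2 * g)) (Fin N) ℂ) (Q : Matrix (Fin N) (Fin (2 * g)) ℂ),
    MiddlePart A a b P Q ∧ ∃ x ∈ L, Q * x * P ≠ 0

/-! ### Motives -/

variable {s n : ℕ} (r : Fin s → ℕ) (w : Fin s → ℤ)

/-- The Betti realization of the sum of the motives `h^1(A) ^ {⊗ r i} (w i)`: families of multilinear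
forms in `r i` variables in the rational homology. -/
abbrev Tensors : Type := ∀ i : Fin s, MultilinearMap ℚ (fun _ : Fin (r i) => A.H1) ℚ

variable {A r}

/-- `M` is the matrix of the action of the endomorphism `X` of the rational homology of `A` (as a
derivation) on the space of tensors with the basis `B`. -/
def IsLieMatrix (B : Fin n → Tensors A r) (X : Module.End ℚ A.H1)
    (M : Matrix (Fin n) (Fin n) ℚ) : Prop :=
  ∀ a i v, ∑ k, B a i (Function.update v k (X (v k))) = ∑ b, M b a * B b i v

/-- The subspace with the basis `B` is the Betti realization of a direct factor `M` of the sum of the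
motives `h^1(A) ^ {⊗ r i} (w i)`, and `P` is the matrix of the periods of `M` for the basis `B` and for
some basis of the de Rham realization of `M` over `ℚ̄`. -/
structure IsMotive (B : Fin n → Tensors A r) (P : Matrix (Fin n) (Fin n) ℂ) : Prop where
  /-- `B` is a basis of a subspace -/
  basis : LinearIndependent ℚ B
  /-- the subspace is stable under `𝔤` -/
  lie : ∀ X, InLie A X → ∃ M : Matrix (Fin n) (Fin n) ℚ, IsLieMatrix B X M
  /-- the subspace is stable under the weights -/
  weight : ∃ M : Matrix (Fin n) (Fin n) ℚ, ∀ a i v,
    ((r i : ℚ) - 2 * w i) * B a i v = ∑ b, M b a * B b i v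
  /-- the de Rham realization has a basis of elements with algebraic coefficients in terms of the
  tensor products of the elements of the basis of `H^1_dR(A / ℚ̄)` -/
  deRham : ∃ c : Fin n → ∀ i : Fin s, (Fin (r i) → Fin g ⊕ Fin g) → ℂ,
    (∀ a i J, IsAlgebraic ℚ (c a i J)) ∧ ∀ a i (v : Fin (r i) → A.H1),
      ∑ J, c a i J * ∏ k, A.dR (J k) (v k) =
        (2 * Real.pi * Complex.I) ^ (w i) * ∑ b, P b a * (B b i v : ℂ)
  /-- the matrix of the periods is invertible -/
  det : P.det ≠ 0

/-! ### The Mumford-Tate domain -/

/-- `N` is the matrix of the action on `M` of the multiplication with `i` on `H_1(A, ℝ) = ℂ ^ g` (as a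
derivation): the generator of the Lie algebra of the circle in the Hodge structure of `M`. -/
def IsComplexStructure (B : Fin n → Tensors A r) (N : Matrix (Fin n) (Fin n) ℝ) : Prop :=
  ∀ a i (j : Fin (r i) → Fin (2 * g)),
    ∑ k, ∑ l : Fin (2 * g), A.lam.repr (Complex.I • A.lam (j k)) l *
        (B a i (Function.update (fun p => Pi.single (j p) 1) k (Pi.single l 1)) : ℝ) =
      ∑ b, N b a * (B b i (fun p => Pi.single (j p) 1) : ℝ)

variable (A) in
/-- The derived algebra `[𝔤, 𝔤]`. -/
def derivedLie : Submodule ℚ (Module.End ℚ A.H1) :=
  Submodule.span ℚ {Z | ∃ X, InLie A X ∧ ∃ Y, InLie A Y ∧ Z = X * Y - Y * X}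

/-- The part of the Hodge group which commutes with the colours acts trivially on the Mumford-Tate
domain of `M`: if an element of `[𝔤, 𝔤] ⊗ ℂ`, which acts on `H_1(A, ℂ)` by `p.1` and on `M` by `p.2`,
commutes with the colours, then `p.2` commutes with the complex structure `N` of `M`. -/
def DomainOf {ι : Type} (K : ι → Submodule ℂ (EndC A)) (B : Fin n → Tensors A r)
    (N : Matrix (Fin n) (Fin n) ℝ) : Prop :=
  ∀ p ∈ Submodule.span ℂ {p : EndC A × Matrix (Fin n) (Fin n) ℂ | ∃ X ∈ derivedLie A,
      ∃ M : Matrix (Fin n) (Fin n) ℚ, IsLieMatrix B X M ∧
        p = (toC A X, M.map fun q => (q : ℂ))},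
    (∀ i, Commutes (K i) p.1) → p.2 * N.map (fun x => (x : ℂ)) = N.map (fun x => (x : ℂ)) * p.2

/-- The Lie algebra of the Hodge group of `M`: the smallest rational Lie algebra whose real span
contains the complex structure `N`. -/
def hodgeLie (N : Matrix (Fin n) (Fin n) ℝ) : Submodule ℚ (Matrix (Fin n) (Fin n) ℚ) :=
  sInf {L | (∀ x ∈ L, ∀ y ∈ L, x * y - y * x ∈ L) ∧
    N ∈ Submodule.span ℝ {M | ∃ x ∈ L, M = x.map fun q => (q : ℝ)}}

/-- The derived algebra. -/
def derived (L : Submodule ℚ (Matrix (Fin n) (Fin n) ℚ)) :
    Submodule ℚ (Matrix (Fin n) (Fin n) ℚ) :=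
  Submodule.span ℚ {z | ∃ x ∈ L, ∃ y ∈ L, z = x * y - y * x}

/-- The centre of the Lie algebra acts trivially: an element of `𝔤` which acts on `M` like a central
element acts trivially. -/
def CentreActsTrivially (B : Fin n → Tensors A r) : Prop :=
  ∀ X, InLie A X → (∀ Y, InLie A Y → IsLieMatrix B (X * Y - Y * X) 0) → IsLieMatrix B X 0

/-! ### Algebraic groups, torsors and the Mumford-Tate group -/

/-- A subgroup of `GL_R(ℂ)` defined by polynomials with rational coefficients. -/
def IsAlgebraicSubgroup {R : Type} [Fintype R] [DecidableEq R] (G : Subgroup (GL R ℂ)) : Prop :=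
  ∃ I : Set (MvPolynomial (R × R) ℚ), ∀ x : GL R ℂ, x ∈ G ↔
    ∀ p ∈ I, MvPolynomial.aeval (fun b : R × R => (x : Matrix R R ℂ) b.1 b.2) p = 0

/-- The torsor `G · T⁻¹` of `G`: the matrices `F` such that `F T` is an element of `G`. It is
defined over `ℚ̄` if `T` is a matrix with algebraic entries. -/
def torsor (G : Subgroup (GL (Fin n) ℂ)) (T : Matrix (Fin n) (Fin n) ℂ) :
    Set (Matrix (Fin n) (Fin n) ℂ) :=
  {F | ∃ x ∈ G, (x : Matrix (Fin n) (Fin n) ℂ) = F * T}

variable (A) in
/-- The Hodge structure of `H^1(A)`: the complex number `z` acts on `H_1(A, ℝ) = ℂ ^ g` by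
multiplication, and on `H^1(A, ℝ)` by the transposed map, here in the basis of `H^1(A, ℚ)` which is
dual to the basis of the lattice. -/
def hodge (z : ℂ) : Matrix (Fin (2 * g)) (Fin (2 * g)) ℂ :=
  Matrix.of fun i j => ((A.lam.repr (z • A.lam i) j : ℝ) : ℂ)

/-- `R` is the matrix of the action of the complex number `z` on `M`, in the Hodge structure given by
those of `H^1(A)` and of the Tate motives (`z` acts on `ℚ(1)` by `(z z̄)⁻¹`). -/
def IsHodgeMatrix (B : Fin n → Tensors A r) (z : ℂ) (R : Matrix (Fin n) (Fin n) ℂ) : Prop :=
  ∀ a i (j : Fin (r i) → Fin (2 * g)),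
    ∑ j' : Fin (r i) → Fin (2 * g), (∏ k, hodge A z (j k) (j' k)) *
        (B a i (fun k => Pi.single (j' k) 1) : ℂ) =
      (z * (starRingEnd ℂ) z) ^ (w i) * ∑ b, R b a * (B b i (fun k => Pi.single (j k) 1) : ℂ)

/-- The Mumford-Tate group of `M`: the smallest algebraic group over `ℚ` which contains the image of
the Deligne torus. -/
def mumfordTate (B : Fin n → Tensors A r) : Subgroup (GL (Fin n) ℂ) :=
  sInf {G | IsAlgebraicSubgroup G ∧ ∀ z : ℂ, z ≠ 0 → ∃ x ∈ G,
    IsHodgeMatrix w B z (x : Matrix (Fin n) (Fin n) ℂ)}

variable (A) in
/-- There is no factor of type IV: the Rosati involution is trivial on the centre of the algebra of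
the endomorphisms, that is, the centre contains no nonzero element which is skew-symmetric for the
polarization `A.om`. (The endomorphisms of the de Rham-Betti object `H_1(A)` are the endomorphisms of
`A` by the theorem of Bost, which is proved in `Pool.Agent.Y102.AbVar.hodge_end`.) -/
def NoFactorOfTypeIV : Prop :=
  ∀ P : Module.End ℚ A.H1, IsDeRhamBettiEnd QBar A.dR P →
    (∀ Q : Module.End ℚ A.H1, IsDeRhamBettiEnd QBar A.dR Q → P * Q = Q * P) →
    (∀ u v, A.om (P u) v + A.om u (P v) = 0) → P = 0

/-- **Theorem.** Let `K` be a colouring of `𝔤 ⊗ ℂ`, for an abelian variety `A` over `ℚ̄`.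

1. If the number of the conjugates of every colour is prime to the number of the noncompact ones among
   them, and these numbers and the dimensions distinguish the orbits of the colours, then the
   colouring is unlinked.
2. Let the colouring be unlinked, and let every colour be conjugate to a colour of a rigid type. Let
   `M` be a motive in the tensor category generated by `h^1(A)` and the Tate motives, with the matrix `P`
   of periods and the complex structure `N`, such that the part of the Hodge group of `A` which
   commutes with the colours acts trivially on the Mumford-Tate domain of `M`. Let `G` be an algebraic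
   group over `ℚ` with a torsor over `ℚ̄` which contains `P`. Then for all elements `Z` of the derived
   algebra of the Lie algebra of the Hodge group of `M` and all complex numbers `t` the matrix
   `exp (t Z)` is in `G`; and if `A` has no factor of type IV, or if the centre acts trivially on `M`,
   then the Mumford-Tate group of `M` is contained in `G`. -/
theorem result {g s n : ℕ} {ι : Type} [Fintype ι] (A : AbVar g)
    (K : ι → Submodule ℂ (EndC A)) (hK : IsColouring K) :
    (CoprimeNumbers K → Unlinked K) ∧
    ((∀ i, ∃ k, Conjugate K i k ∧ IsRigid A (K k)) → Unlinked K →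
      ∀ (r : Fin s → ℕ) (w : Fin s → ℤ)
      (B : Fin n → Tensors A r) (P : Matrix (Fin n) (Fin n) ℂ), IsMotive w B P →
      ∀ N : Matrix (Fin n) (Fin n) ℝ, IsComplexStructure B N → DomainOf K B N →
      ∀ G : Subgroup (GL (Fin n) ℂ), IsAlgebraicSubgroup G → ∀ T : Matrix (Fin n) (Fin n) ℂ,
      (∀ i j, IsAlgebraic ℚ (T i j)) → P ∈ torsor G T →
      (∀ Z ∈ derived (hodgeLie N), ∀ t : ℂ, ∃ x ∈ G,
        (x : Matrix (Fin n) (Fin n) ℂ) = NormedSpace.exp (t • Z.map fun q => (q : ℂ))) ∧
      (NoFactorOfTypeIV A ∨ CentreActsTrivially B → mumfordTate w B ≤ G)) := by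
  classical
  have hlie : lieC A = D0H89.TL.lC A.NA := rfl
  have hJ : complexStructure A = D0H89.TL.mR A AbVar.JJ := by
    ext i j
    rw [D0H89.TL.mR_apply]
    rfl
  have hcs : D0H89.GC.Cs K (D0H89.TL.lC A.NA) :=
    { le := hK.le
      ideal := hK.ideal
      simple := hK.simple
      nab := fun i => by
        obtain ⟨a, ha, b, hb, hne⟩ := hK.nonabelian i
        exact ⟨a, ha, b, hb, sub_ne_zero.2 hne⟩
      inj := fun i k hik => hK.injective hik }
  have hg : D0H89.GC.Gs K := hK.galois
  have hcpt : ∀ i, IsCompact K i ↔ D0H89.GC.Cm (K i) (D0H89.TL.mR A AbVar.JJ) := by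
    intro i
    unfold IsCompact
    rw [hJ]
    rfl
  have hlink : ∀ r θ, IsLinking K r θ ↔ D0H89.GC.Lnkg A K r θ := by
    intro r θ
    constructor
    · intro h
      refine ⟨h.equivalence, fun i k hik => ?_, h.trans, h.galois, fun i k hik hc =>
        (hcpt k).1 (h.compact i k hik ((hcpt i).2 hc)), fun T hT => h.invisible T
          fun X hX ξ hξ => hT X hX ξ ⟨hξ.1, hξ.2⟩⟩
      have h1 := h.isomorphism i k hik
      exact ⟨h1.mem, h1.add, h1.smul, h1.bracket, h1.injective, h1.surjective⟩
    · intro h
      refine ⟨h.equiv, fun i k hik => ?_, h.trans, h.gal, fun i k hik hc =>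
        (hcpt k).2 (h.cpt i k hik ((hcpt i).1 hc)), fun T hT => h.invis T
          fun X hX ξ hξ => hT X hX ξ ⟨hξ.mem, hξ.rest⟩⟩
      have h1 := h.iso i k hik
      exact ⟨h1.mem, h1.add, h1.smul, h1.br, h1.inj, h1.surj⟩
  refine ⟨fun hco r θ hr i k hik => ?_, fun hR hU r w B P hM N hN hD G hG T hT hP => ?_⟩
  · refine D0H89.GC.lnkg_num hcs hg (fun i => ?_) (fun i k => ?_) ((hlink r θ).1 hr) hik
    · have h1 := hco.1 i
      simp only [hcpt] at h1
      exact h1
    · have h1 := hco.2 i k
      simp only [hcpt] at h1
      exact h1
  have hU' : ∀ r θ, D0H89.GC.Lnkg A K r θ → ∀ i k, r i k → i = k := fun r θ hr =>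
    hU r θ ((hlink r θ).2 hr)
  have hR' : ∀ i, ∃ k, (∃ τ : ℂ ≃+* ℂ, ∀ x ∈ K i, x.map τ ∈ K k) ∧ D0H89.GC.Rg A (K k) := by
    intro i
    obtain ⟨k, hik, hk⟩ := hR i
    refine ⟨k, hik, ?_⟩
    have key : ∀ {m : ℕ} (P : Matrix (Fin (2 * g)) (Fin m) ℂ)
        (Q : Matrix (Fin m) (Fin (2 * g)) ℂ), Q * P * Q = Q → P * Q * P = P → ∀ x : EndC A,
        Q * x * P ≠ 0 → Pool.Agent.Y102.matE (2 * g) (P * Q) *
          Pool.Agent.Y102.matE (2 * g) x ≠ 0 := by
      intro m P Q hQ hP x hx h0
      rw [← map_mul] at h0
      have h1 : P * Q * x = 0 :=
        (map_eq_zero_iff _ (Pool.Agent.Y102.matE (2 * g)).injective).1 h0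
      apply hx
      have h2 : Q * x * P = Q * (P * Q * x) * P := by
        rw [← Matrix.mul_assoc, ← Matrix.mul_assoc, hQ]
      rw [h2, h1, Matrix.mul_zero, Matrix.zero_mul]
    rcases hk with h3 | ⟨N, k', d, E, c, P, Q, hA, x, hx, hne⟩ | ⟨N, k', m, a, b, P, Q, hA, x, hx,
      hne⟩
    · exact Or.inl h3
    · right
      exact ⟨_, _, N113.BT.rigPart_spin (A := A) (c := c) hA.square hA.anti hA.six hA.proj
        hA.stable hA.acts hA.generates, x, hx, key P Q (by rw [hA.proj, Matrix.one_mul])
          (by rw [Matrix.mul_assoc, hA.proj, Matrix.mul_one]) x hne⟩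
    · right
      exact ⟨_, _, N113.BT.rigPart_of (A := A) hA.aa hA.bb hA.ab hA.left hA.right hA.middle
        hA.stable hA.acts hA.generates, x, hx, key P Q hA.right hA.left x hne⟩
  obtain ⟨hM', Wt, hW⟩ : N208.AM.Mot w B P ∧ ∃ Wt, N208.AM.WRel w B Wt := by
    have hwt : ∃ M, N208.AM.WRel w B M := by
      obtain ⟨M, h⟩ := hM.weight
      refine ⟨M, fun a i => MultilinearMap.ext fun v => ?_⟩
      rw [_root_.smul_apply, _root_.sum_apply, smul_eq_mul, h a i v]
      rfl
    refine ⟨⟨hM.basis, fun X hX => ?_, hwt, hM.det, hM.deRham⟩, hwt⟩
    obtain ⟨M, h⟩ := hM.lie X hX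
    refine ⟨M, fun a i => MultilinearMap.ext fun v => ?_⟩
    rw [N208.AM.dact_apply, _root_.sum_apply, h a i v]
    rfl
  have hrelL : ∀ X M, N208.AM.Rel B X M ↔ IsLieMatrix B X M := by
    intro X M
    constructor
    · intro h a i v
      have h1 := congrArg (fun φ : MultilinearMap ℚ (fun _ : Fin (r i) => A.H1) ℚ => φ v) (h a i)
      simp only [N208.AM.dact_apply, _root_.sum_apply, _root_.smul_apply, smul_eq_mul] at h1
      exact h1
    · intro h a i
      refine MultilinearMap.ext fun v => ?_
      rw [N208.AM.dact_apply, _root_.sum_apply, h a i v]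
      rfl
  have hb : ∀ j : Fin (2 * g), A.bas j = Pi.single j 1 := fun j => by
    unfold AbVar.bas
    rw [Pi.basisFun_apply]
  have hrel : ∀ z R, N208.AM.HRel w B z R → IsHodgeMatrix w B z R := by
    intro z R h a i j
    have h1 := h a i j
    simp only [hb] at h1
    exact h1
  have hA' : NoFactorOfTypeIV A → N208.AM.NT4 A := fun hA P hP hc hs =>
    hA P (A.mem_EA.1 hP) (fun Q hQ => hc Q (A.mem_EA.2 hQ)) hs
  have hNC : CentreActsTrivially B → N208.AM.NoCentre B := fun hc X hX h =>
    (hrelL X 0).2 (hc X hX fun Y hY => (hrelL _ 0).1 (h Y hY))
  -- the complex structure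
  have hNR : N208.AM.RelR B AbVar.JJ N := by
    intro a i
    refine Basis.ext_multilinear (fun _ => A.lam) fun j => ?_
    have h1 := hN a i j
    rw [N208.AM.dact_apply, _root_.sum_apply]
    have h2 : (fun p => A.lam (j p)) = fun p => A.per (Pi.single (j p) 1) := by
      funext p
      rw [← hb, A.per_bas]
    have h3 : ∀ b, (N b a • A.Phi (B b i)) (fun p => A.lam (j p)) =
        N b a * (B b i (fun p => Pi.single (j p) 1) : ℝ) := fun b => by
      rw [_root_.smul_apply, smul_eq_mul, h2, A.Phi_per]
    rw [Finset.sum_congr rfl fun b _ => h3 b, ← h1]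
    refine Finset.sum_congr rfl fun k _ => ?_
    rw [AbVar.JJ_apply, ← A.lam.sum_repr (Complex.I • A.lam (j k)), MultilinearMap.map_update_sum]
    simp only [A.lam.sum_repr]
    refine Finset.sum_congr rfl fun l _ => ?_
    rw [MultilinearMap.map_update_smul, smul_eq_mul]
    congr 1
    have h4 : A.lam l = A.per (Pi.single l 1) := by rw [← hb, A.per_bas]
    rw [h2, h4, N208.AM.update_per, A.Phi_per]
  have hα : ∀ p ∈ N113.BT.pC B (Pool.Agent.Y102.der A.NA), p.1 ∈ D0H89.GC.KC (A := A) K →
      p.2 * N208.AM.cxm N = N208.AM.cxm N * p.2 := by
    refine D0H89.GC.alpha_ofK fun p hp h0 => ?_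
    refine hD p ?_ h0
    refine (Submodule.span_mono ?_) hp
    rintro _ ⟨X, hX, M, hM, rfl⟩
    refine ⟨X, ?_, M, (hrelL _ _).1 hM, rfl⟩
    refine (Submodule.span_mono ?_) hX
    rintro _ ⟨X, hX, Y, hY, rfl⟩
    exact ⟨X, hX, Y, hY, rfl⟩
  -- the group
  have hdet : T.det ≠ 0 := by
    obtain ⟨x, -, hxT⟩ := hP
    intro h0
    have h1 : (x : Matrix (Fin n) (Fin n) ℂ).det = 0 := by
      rw [hxT, Matrix.det_mul, h0, mul_zero]
    exact (Matrix.GeneralLinearGroup.det x).ne_zero h1
  obtain ⟨T', h1, h2⟩ := Pool.Agent.R917.alg_inv hT hdet
  obtain ⟨x, hx, hxT⟩ := hP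
  have hH : N208.AM.PtM P _ := ⟨Pool.Agent.R917.algGrp_of hG, T, T', h1, h2, x, hx, hxT⟩
  have hK1 : ∀ z ∈ D0H89.GC.KC (A := A) K, ∀ X ∈ A.NA, z * X.baseChange ℂ -
      X.baseChange ℂ * z ∈ D0H89.GC.KC (A := A) K := fun z hz X hX => D0H89.GC.KC_br (D0H89.GC.cl_av hcs hg) hz hX
  have hK2 := D0H89.GC.K2_of2 hcs hg hR' hU' (N208.AM.qM_full hM' hW hH)
  refine ⟨fun Z hZ t => ?_, fun hA => ?_⟩
  · obtain ⟨L, hL1, hL2, hL3⟩ := D0H89.TL.main_derI hM' hW hH hK1 hK2 hNR hα
    have h3 : hodgeLie N ≤ L := sInf_le ⟨hL1, hL2⟩
    have h4 : derived (hodgeLie N) ≤
        N208.AM.LQ {M | ∃ x ∈ G, (x : Matrix (Fin n) (Fin n) ℂ) = M} := by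
      unfold derived
      rw [Submodule.span_le]
      rintro _ ⟨x, hx, y, hy, rfl⟩
      exact hL3 x (h3 hx) y (h3 hy)
    exact Pool.Agent.R917.exp_mem hH.grp fun d => (h4 hZ d).smul t
  · have hc : N208.AM.NoCentre B := hA.elim
      (fun h => N208.AM.noCentre_of_NT4 hM' (hA' h)) hNC
    refine sInf_le ⟨hG, fun z hz => ?_⟩
    obtain ⟨⟨x, hx, hx'⟩, h4⟩ := D0H89.TL.main_BI hM' hW hH hc hK1 hK2 hNR hα hz
    refine ⟨x, hx, ?_⟩
    rw [hx']
    exact hrel _ _ h4

end Pool.Agent.Results.MP_caab05_ag.RigidTypeMotives
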